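import Mathlib
import Pool.Agent.H748Z.SO3Defs
import Pool.Agent.H748Z.SO3Main

set_option autoImplicit false

open Matrix MeasureTheory
open scoped Pointwise symmDiff

namespace Pool.Agent.Results.MP_60c8e6_al.FlippedCap

open Pool.Agent.H748Z.SO3

/-- For the normalised Haar measure on `SO(3)` and every `a` in `(0, 1/2)` there is a nonempty open
set `A` of measure `a` with `μ(A²) = 4 a (1 - a)` that differs from every cap `C(u, θ)` by a set of
nonzero measure. -/
theorem result [MeasurableSpace SO3] [BorelSpace SO3] (μ : Measure SO3) [μ.IsHaarMeasure]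
    [IsProbabilityMeasure μ] (a : ℝ) (ha0 : 0 < a) (ha : a < 1 / 2) :
    ∃ A : Set SO3, IsOpen A ∧ A.Nonempty ∧ μ.real A = a ∧ μ.real (A * A) = 4 * a * (1 - a) ∧
      ∀ (u : Fin 3 → ℝ) (θ : ℝ), u ⬝ᵥ u = 1 → 0 < θ → μ (A ∆ cap u θ) ≠ 0 :=
  main μ a ha0 ha

end Pool.Agent.Results.MP_60c8e6_al.FlippedCap
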